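import Mathlib

/-!
# Families of soluble groups whose associated graphs are always connected

Definitions for `MP_28567f_al` and the basic forcing lemma.
-/

open Subgroup

namespace SolFam

/-- A family of finite soluble groups, closed under isomorphism. (Every finite group is
isomorphic to one whose underlying type is in `Type`.) -/
structure Family where
  /-- membership in the family -/
  mem : ∀ (G : Type) [Group G], Prop
  iso : ∀ (G H : Type) [Group G] [Group H], Nonempty (G ≃* H) → mem G → mem H
  finite : ∀ (G : Type) [Group G], mem G → Finite G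
  soluble : ∀ (G : Type) [Group G], mem G → Group.IsSolvable G

/-- The graph `Λ_F(G)`: distinct `x`, `y` are adjacent iff `⟨x, y⟩ ∈ F`. -/
def Lam (F : Family) (G : Type) [Group G] : SimpleGraph G where
  Adj x y := x ≠ y ∧ F.mem (closure ({x, y} : Set G))
  symm := ⟨fun x y h => ⟨h.1.symm, by
    have : closure ({y, x} : Set G) = closure ({x, y} : Set G) := by rw [Set.pair_comm]
    rw [this]; exact h.2⟩⟩
  loopless := ⟨fun x h => h.1 rfl⟩

/-- The set `I_F(G)` of the vertices which are isolated in the complement of `Λ_F(G)`. -/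
def Iso (F : Family) (G : Type) [Group G] : Set G :=
  {x | ∀ y, y ≠ x → F.mem (closure ({x, y} : Set G))}

/-- The graph `Γ_F(G)`: the subgraph of `Λ_F(G)` induced on `G ∖ I_F(G)`. -/
def Gam (F : Family) (G : Type) [Group G] : SimpleGraph ↥((Iso F G)ᶜ) :=
  (Lam F G).induce ((Iso F G)ᶜ)

/-- `Γ_F(G)` is connected for every finite group `G ∉ F`; the graph without vertices is regarded
as connected. -/
def AlwaysConnected (F : Family) : Prop :=
  ∀ (G : Type) [Group G] [Finite G], ¬ F.mem G → (Gam F G).Preconnected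

/-- `G` is generated by two elements (possibly equal). -/
def TwoGen (G : Type) [Group G] : Prop := ∃ x y : G, closure ({x, y} : Set G) = ⊤

lemma closure_top_of_le {G : Type} [Group G] {x y : G} {K : Subgroup G}
    (h : closure ({x, y} : Set G) = ⊤) (hx : x ∈ K) (hy : y ∈ K) : K = ⊤ := by
  rw [eq_top_iff, ← h, closure_le]
  rintro z (rfl | rfl)
  · exact hx
  · exact hy

lemma mem_of_closure_top (F : Family) {G : Type} [Group G] {x y : G}
    (h : closure ({x, y} : Set G) = ⊤) (hF : F.mem (closure ({x, y} : Set G))) : F.mem G := by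
  rw [h] at hF
  exact F.iso _ _ ⟨topEquiv⟩ hF

/-- The forcing lemma: a set `S` of elements that separates the vertices. -/
lemma forcing (F : Family) (hF : AlwaysConnected F) (G : Type) [Group G] [Finite G]
    [Nontrivial G]
    (hsub : ∀ x y : G, x ≠ y → closure ({x, y} : Set G) ≠ ⊤ → F.mem (closure ({x, y} : Set G)))
    (S : Set G)
    (hS : ∀ u ∈ S, ∀ v ∉ S, (∃ w, closure ({u, w} : Set G) = ⊤) →
      (∃ w, closure ({v, w} : Set G) = ⊤) → closure ({u, v} : Set G) = ⊤)
    (u v : G) (hu : u ∈ S) (hv : v ∉ S) (hu' : ∃ w, closure ({u, w} : Set G) = ⊤)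
    (hv' : ∃ w, closure ({v, w} : Set G) = ⊤) : F.mem G := by
  by_contra hG
  have hgen : ∀ x : G, (∃ w, closure ({x, w} : Set G) = ⊤) → x ∉ Iso F G := by
    rintro x ⟨w, hw⟩ hx
    by_cases hwx : w = x
    · subst hwx
      have hw1 : closure ({w} : Set G) = ⊤ := by simpa using hw
      have hne : (1 : G) ≠ w := by
        rintro rfl
        have h1 : (⊥ : Subgroup G) = ⊤ := by rw [← hw1, closure_singleton_one]
        exact bot_ne_top h1
      have h1 := hx 1 hne
      refine hG (mem_of_closure_top F ?_ h1)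
      rw [eq_top_iff, ← hw1]
      exact closure_mono (by simp)
    · exact hG (mem_of_closure_top F hw (hx w hwx))
  have hgen' : ∀ x : G, x ∉ Iso F G → ∃ w, closure ({x, w} : Set G) = ⊤ := by
    intro x hx
    simp only [Iso, Set.mem_ofPred_eq, not_forall] at hx
    obtain ⟨y, hy, hy'⟩ := hx
    refine ⟨y, ?_⟩
    by_contra h
    exact hy' (hsub x y hy.symm h)
  have hc := hF G hG
  obtain ⟨p⟩ := hc ⟨u, hgen u hu'⟩ ⟨v, hgen v hv'⟩
  obtain ⟨d, -, hd1, hd2⟩ := p.exists_boundary_dart {z | z.1 ∈ S} hu hv
  have hadj : (Lam F G).Adj d.fst.1 d.snd.1 := d.adj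
  have htop := hS d.fst.1 hd1 d.snd.1 hd2 (hgen' _ d.fst.2) (hgen' _ d.snd.2)
  exact hG (mem_of_closure_top F htop hadj.2)

end SolFam
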