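import Pool.Agent.H1.SolFam.Basic

/-!
# The criterion: reduction to non-generating graphs of two-generated soluble groups
-/

open Subgroup

namespace SolFam

/-- The family of all finite soluble groups. -/
def Sol : Family where
  mem G _ := Finite G ∧ Group.IsSolvable G
  iso G H _ _ := by
    rintro ⟨e⟩ ⟨h1, h2⟩
    exact ⟨Finite.of_equiv G e.toEquiv, Group.isSolvable_of_surjective (f := e.toMonoidHom) e.surjective⟩
  finite G _ h := h.1
  soluble G _ h := h.2

/-- The elements of `Y` which belong to a generating pair of `Y`. -/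
def GenVertex (Y : Type) [Group Y] : Set Y := {x | ∃ w, closure ({x, w} : Set Y) = ⊤}

/-- The non-generating graph: distinct `x`, `y` are adjacent iff they do not generate `Y`. -/
def NonGen (Y : Type) [Group Y] : SimpleGraph Y where
  Adj x y := x ≠ y ∧ closure ({x, y} : Set Y) ≠ ⊤
  symm := ⟨fun x y h => ⟨h.1.symm, by rw [Set.pair_comm]; exact h.2⟩⟩
  loopless := ⟨fun x h => h.1 rfl⟩

/-- The graph `Σ(Y)`: the non-generating graph on the members of generating pairs. -/
def Sig (Y : Type) [Group Y] : SimpleGraph ↥(GenVertex Y) := (NonGen Y).induce (GenVertex Y)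

/-- The criterion. -/
def Criterion (F : Family) : Prop :=
  ∀ (Y : Type) [Group Y] [Finite Y], Group.IsSolvable Y → TwoGen Y → ¬ F.mem Y →
    (Sig Y).Preconnected ∨
      ∃ x y : Y, x ≠ y ∧ ¬ F.mem (closure ({x, y} : Set Y)) ∧
        ∀ w, closure ({x, w} : Set Y) ≠ ⊤

/-- `Γ_F(G)` is connected for every finite soluble group `G ∉ F`. -/
def SolConnected (F : Family) : Prop :=
  ∀ (G : Type) [Group G] [Finite G], Group.IsSolvable G → ¬ F.mem G → (Gam F G).Preconnected

lemma mem_closure_iff (F : Family) {G : Type} [Group G] (H : Subgroup G) (x y : H) :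
    F.mem (closure ({x, y} : Set H)) ↔ F.mem (closure ({(x : G), (y : G)} : Set G)) := by
  have h : (closure ({x, y} : Set H)).map H.subtype = closure ({(x : G), (y : G)} : Set G) := by
    rw [MonoidHom.map_closure]
    congr 1
    simp [Set.image_pair]
  have e := (closure ({x, y} : Set H)).equivMapOfInjective H.subtype H.subtype_injective
  rw [h] at e
  exact ⟨F.iso _ _ ⟨e⟩, F.iso _ _ ⟨e.symm⟩⟩

/-- The inclusion of `Γ_F(H)` into `Γ_F(G)`. -/
def gamHom (F : Family) {G : Type} [Group G] (H : Subgroup G) : Gam F H →g Gam F G where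
  toFun x := ⟨x.1.1, by
    intro hx
    apply x.2
    intro y hy
    rw [mem_closure_iff]
    exact hx y.1 (fun h => hy (Subtype.ext h))⟩
  map_rel' := by
    rintro ⟨x, hx⟩ ⟨y, hy⟩ h
    have h' : x ≠ y ∧ F.mem (closure ({x, y} : Set H)) := h
    exact ⟨fun h'' => h'.1 (Subtype.ext h''), (mem_closure_iff F H x y).1 h'.2⟩

lemma twoGen_closure' {G : Type} [Group G] (x y : G) : TwoGen (closure ({x, y} : Set G)) := by
  refine ⟨⟨x, subset_closure (by simp)⟩, ⟨y, subset_closure (by simp)⟩, ?_⟩
  have h := closure_closure_coe_preimage (k := ({x, y} : Set G))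
  rw [← h]
  congr 1
  ext z
  simp [Subtype.ext_iff]

/-- If `Γ_F(H)` is connected for `H = ⟨u, v⟩` whenever `H ∉ F`, then `u`, `v` are connected. -/
lemma reach_of_closure (F : Family) {G : Type} [Group G] (u v : ↥((Iso F G)ᶜ))
    (h : ¬ F.mem (closure ({u.1, v.1} : Set G)) →
      (Gam F (closure ({u.1, v.1} : Set G))).Preconnected) : (Gam F G).Reachable u v := by
  by_cases huv : u = v
  · rw [huv]
  have huv' : u.1 ≠ v.1 := fun h' => huv (Subtype.ext h')
  by_cases hmem : F.mem (closure ({u.1, v.1} : Set G))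
  · exact SimpleGraph.Adj.reachable ⟨huv', hmem⟩
  · have hc := h hmem
    set H := closure ({u.1, v.1} : Set G) with hH
    let a : H := ⟨u.1, subset_closure (by simp)⟩
    let b : H := ⟨v.1, subset_closure (by simp)⟩
    have hab : a ≠ b := fun h' => huv' (congrArg (fun t : H => (t : G)) h')
    have h1 : ¬ F.mem (closure ({a, b} : Set H)) := by
      rw [mem_closure_iff]; exact hmem
    have ha : a ∉ Iso F H := fun h' => h1 (h' b hab.symm)
    have hb : b ∉ Iso F H := fun h' => h1 (by
      have := h' a hab
      rwa [Set.pair_comm] at this)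
    have := (hc ⟨a, ha⟩ ⟨b, hb⟩).map (gamHom F H)
    exact this

lemma genVertex_not_iso (F : Family) {Y : Type} [Group Y] [Nontrivial Y] (hY : ¬ F.mem Y) (x : Y)
    (hx : x ∈ GenVertex Y) : x ∉ Iso F Y := by
  obtain ⟨w, hw⟩ := hx
  intro hx
  by_cases hwx : w = x
  · subst hwx
    have hw1 : closure ({w} : Set Y) = ⊤ := by simpa using hw
    have hne : (1 : Y) ≠ w := by
      rintro rfl
      have h1 : (⊥ : Subgroup Y) = ⊤ := by rw [← hw1, closure_singleton_one]
      exact bot_ne_top h1
    refine hY (mem_of_closure_top F ?_ (hx 1 hne))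
    rw [eq_top_iff, ← hw1]
    exact closure_mono (by simp)
  · exact hY (mem_of_closure_top F hw (hx w hwx))

/-- Necessity. -/
theorem criterion_of_solConnected (F : Family) (h : SolConnected F) : Criterion F := by
  intro Y _ _ hsol h2 hY
  by_contra hcon
  push Not at hcon
  obtain ⟨hS, hcon⟩ := hcon
  apply hS
  have hc := h Y hsol hY
  intro a b
  by_cases hnt : Nontrivial Y
  · have hsub : ∀ x : Y, x ∉ Iso F Y → x ∈ GenVertex Y := by
      intro x hx
      simp only [Iso, Set.mem_ofPred_eq, not_forall] at hx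
      obtain ⟨y, hy, hy'⟩ := hx
      exact hcon x y hy.symm hy'
    let f : Gam F Y →g Sig Y :=
      { toFun := fun x => ⟨x.1, hsub x.1 x.2⟩
        map_rel' := by
          rintro ⟨x, hx⟩ ⟨y, hy⟩ hxy
          have h' : x ≠ y ∧ F.mem (closure ({x, y} : Set Y)) := hxy
          exact ⟨h'.1, fun htop => hY (mem_of_closure_top F htop h'.2)⟩ }
    exact (hc ⟨a.1, genVertex_not_iso F hY a.1 a.2⟩
      ⟨b.1, genVertex_not_iso F hY b.1 b.2⟩).map f
  · rw [not_nontrivial_iff_subsingleton] at hnt
    have : a = b := Subsingleton.elim _ _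
    rw [this]

/-- Sufficiency for two-generated soluble groups. -/
theorem twoGen_connected (F : Family) (h : Criterion F) :
    ∀ (n : ℕ) (Y : Type) [Group Y] [Finite Y], Nat.card Y = n → Group.IsSolvable Y → TwoGen Y →
      ¬ F.mem Y → (Gam F Y).Preconnected := by
  intro n
  induction n using Nat.strong_induction_on with
  | _ n ih =>
    intro Y _ _ hn hsol h2 hY
    -- pairs which do not generate `Y` are connected
    have hpair : ∀ u v : ↥((Iso F Y)ᶜ), closure ({u.1, v.1} : Set Y) ≠ ⊤ →
        (Gam F Y).Reachable u v := by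
      intro u v huv
      refine reach_of_closure F u v fun hmem => ?_
      refine ih _ ?_ _ rfl ?_ (twoGen_closure' _ _) hmem
      · rw [← hn]
        refine lt_of_le_of_ne (Subgroup.card_le_card_group _) ?_
        intro h
        exact huv (Subgroup.card_eq_iff_eq_top _ |>.1 h)
      · infer_instance
    by_cases huniv : ∃ z : ↥((Iso F Y)ᶜ), z.1 ∉ GenVertex Y
    · obtain ⟨z, hz⟩ := huniv
      have hz' : ∀ w, closure ({z.1, w} : Set Y) ≠ ⊤ := fun w hw => hz ⟨w, hw⟩
      intro u v
      exact (hpair z u (hz' _)).symm.trans (hpair z v (hz' _))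
    · push Not at huniv
      rcases h Y hsol h2 hY with hS | ⟨x, y, hxy, hmem, hx⟩
      · by_cases hnt : Nontrivial Y
        · -- every walk in `Σ(Y)` gives a walk in `Γ_F(Y)`
          have key : ∀ a b : ↥(GenVertex Y), (Sig Y).Walk a b →
              (Gam F Y).Reachable ⟨a.1, genVertex_not_iso F hY a.1 a.2⟩
                ⟨b.1, genVertex_not_iso F hY b.1 b.2⟩ := by
            intro a b p
            induction p with
            | nil => exact SimpleGraph.Reachable.refl _
            | cons hadj _ ih' =>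
              exact (hpair ⟨_, _⟩ ⟨_, _⟩ hadj.2).trans ih'
          intro u v
          obtain ⟨p⟩ := hS ⟨u.1, huniv u⟩ ⟨v.1, huniv v⟩
          exact key _ _ p
        · rw [not_nontrivial_iff_subsingleton] at hnt
          intro u v
          have : u = v := Subsingleton.elim _ _
          rw [this]
      · exfalso
        have hx' : x ∉ Iso F Y := fun h' => hmem (h' y hxy.symm)
        obtain ⟨w, hw⟩ := huniv ⟨x, hx'⟩
        exact hx w hw

/-- Sufficiency for soluble groups. -/
theorem solConnected_of_criterion (F : Family) (h : Criterion F) : SolConnected F := by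
  intro G _ _ hsol _ u v
  refine reach_of_closure F u v fun hmem => ?_
  exact twoGen_connected F h _ _ rfl inferInstance (twoGen_closure' _ _) hmem

/-- Sufficiency for groups `G` such that `Γ_S(G)` is connected and has a vertex. -/
theorem connected_of_criterion (F : Family) (h : Criterion F) (G : Type) [Group G] [Finite G]
    (hG : (Gam Sol G).Preconnected) (hne : Iso Sol G ≠ Set.univ) : (Gam F G).Preconnected := by
  -- pairs which generate a soluble subgroup are connected
  have hpair : ∀ u v : ↥((Iso F G)ᶜ), Group.IsSolvable (closure ({u.1, v.1} : Set G)) →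
      (Gam F G).Reachable u v := by
    intro u v huv
    refine reach_of_closure F u v fun hmem => ?_
    exact twoGen_connected F h _ _ rfl huv (twoGen_closure' _ _) hmem
  have hV : ∀ x : G, x ∉ Iso Sol G → x ∉ Iso F G := by
    intro x hx hx'
    apply hx
    intro y hy
    exact ⟨inferInstance, F.soluble _ (hx' y hy)⟩
  have key : ∀ a b : ↥((Iso Sol G)ᶜ), (Gam Sol G).Walk a b →
      (Gam F G).Reachable ⟨a.1, hV a.1 a.2⟩ ⟨b.1, hV b.1 b.2⟩ := by
    intro a b p
    induction p with
    | nil => exact SimpleGraph.Reachable.refl _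
    | cons hadj _ ih =>
      have h2 : Sol.mem _ := hadj.2
      exact (hpair ⟨_, _⟩ ⟨_, _⟩ h2.2).trans ih
  obtain ⟨z, hz⟩ : ∃ z, z ∉ Iso Sol G := by
    by_contra hcon
    push Not at hcon
    exact hne (Set.eq_univ_of_forall hcon)
  have hz' : ∀ u : ↥((Iso F G)ᶜ), (Gam F G).Reachable u ⟨z, hV z hz⟩ := by
    intro u
    by_cases hu : u.1 ∈ Iso Sol G
    · by_cases huz : z = u.1
      · rw [huz] at hz
        exact absurd hu hz
      · exact hpair u ⟨z, hV z hz⟩ (hu z huz).2
    · obtain ⟨p⟩ := hG ⟨u.1, hu⟩ ⟨z, hz⟩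
      exact key _ _ p
  intro u v
  exact (hz' u).trans (hz' v).symm

end SolFam
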