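import Pool.Agent.H1.SolFam.Basic

/-!
# Groups that every always connected family contains
-/

open Subgroup

namespace SolFam

/-- Nontrivial subgroups generated by two distinct elements are nontrivial. -/
lemma nontrivial_closure {G : Type} [Group G] {x y : G} (h : x ≠ y) :
    Nontrivial (closure ({x, y} : Set G)) :=
  ⟨⟨⟨x, subset_closure (by simp)⟩, ⟨y, subset_closure (by simp)⟩, fun h' => h (by
    simpa using congrArg Subtype.val h')⟩⟩

/-- The subgroup generated by two elements is generated by two elements. -/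
lemma twoGen_closure {G : Type} [Group G] (x y : G) : TwoGen (closure ({x, y} : Set G)) := by
  refine ⟨⟨x, subset_closure (by simp)⟩, ⟨y, subset_closure (by simp)⟩, ?_⟩
  have h := closure_closure_coe_preimage (k := ({x, y} : Set G))
  rw [← h]
  congr 1
  ext z
  simp [Subtype.ext_iff]

/-- Every nontrivial finite cyclic group is in `F`. -/
theorem cyclic_mem (F : Family) (hF : AlwaysConnected F) :
    ∀ (n : ℕ) (G : Type) [Group G] [Finite G] [Nontrivial G] [IsCyclic G], Nat.card G = n →
      F.mem G := by
  intro n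
  induction n using Nat.strong_induction_on with
  | _ n ih =>
    intro G _ _ _ _ hn
    obtain ⟨g, hg⟩ := IsCyclic.exists_generator (α := G)
    have htop : zpowers g = ⊤ := by
      rw [eq_top_iff]; exact fun x _ => hg x
    have hgen : ∀ v : G, closure ({g, v} : Set G) = ⊤ := by
      intro v
      rw [eq_top_iff, ← htop, zpowers_eq_closure]
      exact closure_mono (by simp)
    have hg1 : g ≠ 1 := by
      rintro rfl
      have : (⊥ : Subgroup G) = ⊤ := by rw [← htop, zpowers_one_eq_bot]
      exact bot_ne_top this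
    refine forcing F hF G ?_ {g} ?_ g 1 rfl (by simpa using hg1.symm) ⟨1, hgen 1⟩
      ⟨g, by rw [Set.pair_comm]; exact hgen 1⟩
    · intro x y hxy hne
      have := nontrivial_closure hxy
      refine ih (Nat.card (closure ({x, y} : Set G))) ?_ _ rfl
      rw [← hn]
      refine lt_of_le_of_ne (Subgroup.card_le_card_group _) ?_
      intro h
      exact hne (Subgroup.card_eq_iff_eq_top _ |>.1 h)
    · rintro u rfl v - - -
      exact hgen v


/-- A maximal subgroup of a nilpotent group contains the commutator subgroup. -/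
lemma commutator_le_coatom {N : Type} [Group N] [Group.IsNilpotent N] (M : Subgroup N)
    (hM : IsCoatom M) : commutator N ≤ M := by
  have hnor : M.Normal :=
    NormalizerCondition.normal_of_coatom M Group.normalizerCondition_of_isNilpotent hM
  by_contra hle
  have htop : M ⊔ commutator N = ⊤ := by
    apply hM.2
    exact left_lt_sup.2 hle
  have hnt : Nontrivial (N ⧸ M) := by
    rw [QuotientGroup.nontrivial_iff]
    exact hM.1
  have hlt := Group.IsSolvable.commutator_lt_top_of_nontrivial (N ⧸ M)
  have hmap := congrArg (Subgroup.map (QuotientGroup.mk' M)) htop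
  rw [Subgroup.map_sup, map_commutator_eq, QuotientGroup.map_mk'_self, bot_sup_eq,
    QuotientGroup.range_mk', Subgroup.map_top_of_surjective _ (QuotientGroup.mk'_surjective M),
    ← commutator_def] at hmap
  exact hlt.ne hmap

/-- In a finite nilpotent group the elements of the commutator subgroup are nongenerators. -/
lemma nilp_gen {N : Type} [Group N] [Finite N] [Group.IsNilpotent N] (K : Subgroup N)
    (hK : K ⊔ commutator N = ⊤) : K = ⊤ := by
  by_contra hne
  obtain h | ⟨M, hM, hKM⟩ := eq_top_or_exists_le_coatom K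
  · exact hne h
  · refine hM.1 (top_le_iff.1 ?_)
    rw [← hK]
    exact sup_le hKM (commutator_le_coatom M hM)

lemma mem_of_coprime {G : Type} [Group G] (M : Subgroup G) (g : G) (a b : ℤ)
    (hab : IsCoprime a b) (ha : g ^ a ∈ M) (hb : g ^ b ∈ M) : g ∈ M := by
  obtain ⟨s, t, hst⟩ := hab
  have : g = (g ^ a) ^ s * (g ^ b) ^ t := by
    rw [← zpow_mul, ← zpow_mul, ← zpow_add, mul_comm a s, mul_comm b t, hst, zpow_one]
  rw [this]
  exact M.mul_mem (M.zpow_mem ha _) (M.zpow_mem hb _)

/-- In a finite `p`-group, `p`-th powers lie in every maximal subgroup. -/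
lemma pow_mem_coatom {G : Type} [Group G] [Finite G] {p : ℕ} (hp : p.Prime) (hG : IsPGroup p G)
    (M : Subgroup G) (hM : IsCoatom M) (g : G) : g ^ p ∈ M := by
  have : Fact p.Prime := ⟨hp⟩
  have : Group.IsNilpotent G := hG.isNilpotent
  have hnor : M.Normal :=
    NormalizerCondition.normal_of_coatom M Group.normalizerCondition_of_isNilpotent hM
  by_contra h
  have htop : M ⊔ zpowers (g ^ p) = ⊤ := by
    apply hM.2
    rw [left_lt_sup, zpowers_le]
    exact h
  have hg : g ∈ M ⊔ zpowers (g ^ p) := by rw [htop]; trivial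
  obtain ⟨a, ha, b, hb, hab⟩ := mem_sup_of_normal_left.1 hg
  obtain ⟨k, rfl⟩ := mem_zpowers_iff.1 hb
  obtain ⟨j, hj⟩ := hG g
  have h1 : g ^ (1 - (p : ℤ) * k) ∈ M := by
    have : g ^ (1 - (p : ℤ) * k) = a := by
      rw [zpow_sub, zpow_one, zpow_mul, zpow_natCast, mul_inv_eq_iff_eq_mul]
      exact hab.symm
    rw [this]; exact ha
  have h2 : g ^ ((p : ℤ) ^ j) ∈ M := by
    have : g ^ ((p : ℤ) ^ j) = 1 := by
      rw [← hj]; norm_cast
    rw [this]; exact M.one_mem
  have h3 : g ∈ M := by
    refine mem_of_coprime M g _ _ ?_ h1 h2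
    apply IsCoprime.pow_right
    exact ⟨1, k, by ring⟩
  exact h (M.pow_mem h3 p)

/-- In a finite `p`-group, a member of a generating pair lies in at most one maximal subgroup. -/
lemma coatom_unique {G : Type} [Group G] [Finite G] {p : ℕ} (hp : p.Prime) (hG : IsPGroup p G)
    (M M' : Subgroup G) (hM : IsCoatom M) (hM' : IsCoatom M') (u w : G)
    (huw : closure ({u, w} : Set G) = ⊤) (hu : u ∈ M) (hu' : u ∈ M') : M = M' := by
  have : Fact p.Prime := ⟨hp⟩
  have : Group.IsNilpotent G := hG.isNilpotent
  have hnor : M.Normal :=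
    NormalizerCondition.normal_of_coatom M Group.normalizerCondition_of_isNilpotent hM
  have hnor' : M'.Normal :=
    NormalizerCondition.normal_of_coatom M' Group.normalizerCondition_of_isNilpotent hM'
  have htop : (M ⊓ M') ⊔ zpowers w = ⊤ :=
    closure_top_of_le huw (mem_sup_left ⟨hu, hu'⟩) (mem_sup_right (mem_zpowers w))
  have hwM : w ∉ M := fun h => hM.1 (closure_top_of_le huw hu h)
  have hle : M ≤ M' := by
    intro m hm
    have hm' : m ∈ (M ⊓ M') ⊔ zpowers w := by rw [htop]; trivial
    obtain ⟨n, hn, b, hb, rfl⟩ := mem_sup_of_normal_left.1 hm'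
    obtain ⟨i, rfl⟩ := mem_zpowers_iff.1 hb
    have hwi : w ^ i ∈ M := (M.mul_mem_cancel_left hn.1).1 hm
    have hpi : (p : ℤ) ∣ i := by
      by_contra hpi
      have hcop : IsCoprime (p : ℤ) i :=
        (Nat.prime_iff_prime_int.1 hp).coprime_iff_not_dvd.2 hpi
      refine hwM (mem_of_coprime M w _ _ hcop ?_ hwi)
      rw [zpow_natCast]
      exact pow_mem_coatom hp hG M hM w
    obtain ⟨t, rfl⟩ := hpi
    refine M'.mul_mem hn.2 ?_
    rw [zpow_mul, zpow_natCast]
    exact M'.zpow_mem (pow_mem_coatom hp hG M' hM' w) t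
  exact (hM.le_iff.1 hle).resolve_left hM'.1 |>.symm

/-- Every nontrivial finite `p`-group generated by two elements is in `F`. -/
theorem pgroup_mem (F : Family) (hF : AlwaysConnected F) {p : ℕ} (hp : p.Prime) :
    ∀ (n : ℕ) (G : Type) [Group G] [Finite G] [Nontrivial G], IsPGroup p G → TwoGen G →
      Nat.card G = n → F.mem G := by
  intro n
  induction n using Nat.strong_induction_on with
  | _ n ih =>
    intro G _ _ _ hG h2 hn
    by_cases hcyc : IsCyclic G
    · exact cyclic_mem F hF _ G rfl
    obtain ⟨x, y, hxy⟩ := h2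
    have hx : zpowers x ≠ ⊤ := by
      intro h
      exact hcyc ⟨⟨x, fun z => by
        have : z ∈ (⊤ : Subgroup G) := trivial
        rw [← h] at this; exact this⟩⟩
    obtain h | ⟨M, hM, hxM⟩ := eq_top_or_exists_le_coatom (zpowers x)
    · exact absurd h hx
    have hxM' : x ∈ M := hxM (mem_zpowers x)
    have hyM : y ∉ M := fun h => hM.1 (closure_top_of_le hxy hxM' h)
    refine forcing F hF G ?_ (M : Set G) ?_ x y hxM' hyM ⟨y, hxy⟩
      ⟨x, by rw [Set.pair_comm]; exact hxy⟩
    · intro a b hab hne
      have := nontrivial_closure hab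
      refine ih (Nat.card (closure ({a, b} : Set G))) ?_ _ (hG.to_subgroup _)
        (twoGen_closure a b) rfl
      rw [← hn]
      refine lt_of_le_of_ne (Subgroup.card_le_card_group _) ?_
      intro h
      exact hne (Subgroup.card_eq_iff_eq_top _ |>.1 h)
    · rintro u hu v hv ⟨w, hw⟩ -
      by_contra h
      obtain h' | ⟨M', hM', hle⟩ := eq_top_or_exists_le_coatom (closure ({u, v} : Set G))
      · exact h h'
      have hu' : u ∈ M' := hle (subset_closure (by simp))
      have hv' : v ∈ M' := hle (subset_closure (by simp))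
      have := coatom_unique hp hG M M' hM hM' u w hw hu hu'
      subst this
      exact hv hv'

end SolFam
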