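import Pool.Agent.H1.SolFam.Forced

/-!
# Extensions of prime index
-/

open Subgroup
open scoped commutatorElement

namespace SolFam

lemma TwoGen.of_equiv {G H : Type} [Group G] [Group H] (e : G ≃* H) (h : TwoGen G) : TwoGen H := by
  obtain ⟨x, y, hxy⟩ := h
  refine ⟨e x, e y, ?_⟩
  have := congrArg (Subgroup.map e.toMonoidHom) hxy
  rw [MonoidHom.map_closure, Subgroup.map_top_of_surjective _ e.surjective] at this
  rw [← this]
  congr 1
  simp [Set.image_pair]

/-- Let `N` be a nilpotent normal subgroup of `G` whose index is `q` or `1`, such that the elements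
outside `N` satisfy `w ^ q = 1` and the nontrivial subgroups of `N` which are generated by two
elements lie in `F`. If `G` is generated by two elements, then `G ∈ F`. -/
theorem index_mem (F : Family) (hF : AlwaysConnected F) {q : ℕ} (hq : q.Prime) :
    ∀ (n : ℕ) (G : Type) [Group G] [Finite G] [Nontrivial G], TwoGen G → Nat.card G = n →
      ∀ N : Subgroup G, N.Normal → N.index ∣ q → Group.IsNilpotent N →
      (∀ w, w ∉ N → w ^ q = 1) →
      (∀ H : Subgroup G, H ≤ N → Nontrivial H → TwoGen H → F.mem H) → F.mem G := by
  intro n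
  induction n using Nat.strong_induction_on with
  | _ n ih =>
    intro G _ _ _ h2 hn N hN hidx hnil hpow hsubN
    by_cases hNtop : N = ⊤
    · have h := hsubN ⊤ (by rw [hNtop]) (by
        exact (topEquiv (G := G)).toEquiv.nontrivial) (h2.of_equiv topEquiv.symm)
      exact F.iso _ _ ⟨topEquiv⟩ h
    have hidx' : N.index = q := by
      rcases (Nat.dvd_prime hq).1 hidx with h | h
      · exact absurd (index_eq_one.1 h) hNtop
      · exact h
    -- the quotient is cyclic of order `q`
    have hquot : ∀ g v : G, v ∉ N → ∃ i : ℤ, g * v ^ i ∈ N := by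
      intro g v hv
      have hcard : Nat.card (G ⧸ N) = q := hidx'
      have : Fact (Nat.card (G ⧸ N)).Prime := ⟨by rw [hcard]; exact hq⟩
      have hv1 : (QuotientGroup.mk v : G ⧸ N) ≠ 1 := by
        rwa [Ne, QuotientGroup.eq_one_iff]
      have hz := zpowers_eq_top_of_prime_card (G := G ⧸ N) rfl hv1
      have hmem : (QuotientGroup.mk g⁻¹ : G ⧸ N) ∈ zpowers (QuotientGroup.mk v : G ⧸ N) := by
        rw [hz]; trivial
      obtain ⟨i, hi⟩ := mem_zpowers_iff.1 hmem
      refine ⟨i, ?_⟩
      rw [← QuotientGroup.eq_one_iff, QuotientGroup.mk_mul, QuotientGroup.mk_zpow, hi,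
        QuotientGroup.mk_inv, mul_inv_cancel]
    -- find a generating pair with exactly one member in `N`
    obtain ⟨u, v, huv, hu, hv⟩ : ∃ u v : G, closure ({u, v} : Set G) = ⊤ ∧ u ∈ N ∧ v ∉ N := by
      obtain ⟨x, y, hxy⟩ := h2
      by_cases hy : y ∈ N
      · refine ⟨y, x, by rw [Set.pair_comm]; exact hxy, hy, ?_⟩
        intro hx
        exact hNtop (closure_top_of_le hxy hx hy)
      · obtain ⟨i, hi⟩ := hquot x y hy
        refine ⟨x * y ^ i, y, ?_, hi, hy⟩
        refine closure_top_of_le hxy ?_ (subset_closure (by simp))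
        have h1 : x * y ^ i ∈ closure ({x * y ^ i, y} : Set G) := subset_closure (by simp)
        have h2 : y ∈ closure ({x * y ^ i, y} : Set G) := subset_closure (by simp)
        have h3 := mul_mem h1 (zpow_mem h2 (-i))
        rwa [mul_assoc, ← zpow_add, add_neg_cancel, zpow_zero, mul_one] at h3
    refine forcing F hF G ?_ (N : Set G) ?_ u v hu hv ⟨v, huv⟩
      ⟨u, by rw [Set.pair_comm]; exact huv⟩
    · intro a b hab hne
      have := nontrivial_closure hab
      set H := closure ({a, b} : Set G) with hH
      refine ih (Nat.card H) ?_ H (twoGen_closure a b) rfl (N.subgroupOf H) inferInstance ?_ ?_ ?_ ?_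
      · rw [← hn]
        refine lt_of_le_of_ne (Subgroup.card_le_card_group _) ?_
        intro h
        exact hne (Subgroup.card_eq_iff_eq_top _ |>.1 h)
      · exact (relIndex_dvd_index_of_normal N H).trans hidx
      · let f : N.subgroupOf H →* N :=
          { toFun := fun z => ⟨z.1.1, z.2⟩
            map_one' := rfl
            map_mul' := fun _ _ => rfl }
        refine Subgroup.isNilpotent_of_ker_le_center f ?_
        have hinj : Function.Injective f := by
          intro z z' h
          ext
          exact congrArg (fun t : N => (t : G)) h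
        rw [(MonoidHom.ker_eq_bot_iff f).2 hinj]
        exact bot_le
      · intro w hw
        ext
        exact hpow w.1 hw
      · intro K hK hKn hK2
        have e : K ≃* K.map H.subtype := K.equivMapOfInjective H.subtype H.subtype_injective
        refine F.iso _ _ ⟨e.symm⟩ (hsubN (K.map H.subtype) ?_ (e.symm.toEquiv.nontrivial)
          (hK2.of_equiv e))
        rintro _ ⟨z, hz, rfl⟩
        exact hK hz
    · rintro a ha b hb ⟨w, hw⟩ -
      replace ha : a ∈ N := ha
      replace hb : b ∉ N := hb
      have hwN : w ∉ N := fun h => hNtop (closure_top_of_le hw ha h)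
      set K₀ := closure ({a, b} : Set G) with hK₀
      have haK : a ∈ K₀ := subset_closure (by simp)
      have hbK : b ∈ K₀ := subset_closure (by simp)
      set L : Subgroup G := (K₀ ⊓ N) ⊔ ⁅N, N⁆ with hL
      have hcN : ⁅N, N⁆ ≤ N := commutator_le_left N N
      have hLN : L ≤ N := sup_le inf_le_right hcN
      -- `L` is normalized by `N`
      have hLn : ∀ g ∈ N, ∀ l ∈ L, g * l * g⁻¹ ∈ L := by
        intro g hg l hl
        have h1 : ⁅g, l⁆ ∈ ⁅N, N⁆ := commutator_mem_commutator hg (hLN hl)
        have h2 : g * l * g⁻¹ = ⁅g, l⁆ * l := by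
          rw [commutatorElement_def]; group
        rw [h2]
        exact L.mul_mem (mem_sup_right h1) hl
      -- `L` is normalized by `K₀`
      have hLk : ∀ g ∈ K₀, ∀ l ∈ L, g * l * g⁻¹ ∈ L := by
        intro g hg l hl
        have : L ≤ L.comap (MulAut.conj g).toMonoidHom := by
          refine sup_le ?_ ?_
          · intro z hz
            refine mem_sup_left ⟨?_, ?_⟩
            · exact K₀.mul_mem (K₀.mul_mem hg hz.1) (K₀.inv_mem hg)
            · exact hN.conj_mem z hz.2 g
          · intro z hz
            exact mem_sup_right ((commutator_normal N N).conj_mem z hz g)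
        exact this hl
      have hLnor : L.Normal := by
        refine ⟨fun l hl g => ?_⟩
        obtain ⟨i, hi⟩ := hquot g b hb
        have h1 := hLk (b ^ (-i)) (K₀.zpow_mem hbK _) l hl
        have h2 := hLn _ hi _ h1
        have : g * b ^ i * (b ^ (-i) * l * (b ^ (-i))⁻¹) * (g * b ^ i)⁻¹ = g * l * g⁻¹ := by
          group
        rwa [this] at h2
      have htop : L ⊔ zpowers w = ⊤ :=
        closure_top_of_le hw (mem_sup_left (mem_sup_left ⟨haK, ha⟩))
          (mem_sup_right (mem_zpowers w))
      have hNL : N ≤ L := by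
        intro z hz
        have hz' : z ∈ L ⊔ zpowers w := by rw [htop]; trivial
        obtain ⟨l, hl, c, hc, rfl⟩ := mem_sup_of_normal_left.1 hz'
        obtain ⟨i, rfl⟩ := mem_zpowers_iff.1 hc
        have hwi : w ^ i ∈ N := (N.mul_mem_cancel_left (hLN hl)).1 hz
        have hqi : (q : ℤ) ∣ i := by
          by_contra hqi
          have hcop : IsCoprime (q : ℤ) i :=
            (Nat.prime_iff_prime_int.1 hq).coprime_iff_not_dvd.2 hqi
          refine hwN (mem_of_coprime N w _ _ hcop ?_ hwi)
          rw [zpow_natCast, hpow w hwN]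
          exact N.one_mem
        obtain ⟨t, rfl⟩ := hqi
        rw [zpow_mul, zpow_natCast, hpow w hwN, one_zpow, mul_one]
        exact hl
      -- nongenerators
      have hKN : (K₀.subgroupOf N) ⊔ commutator N = ⊤ := by
        apply Subgroup.map_injective N.subtype_injective
        rw [Subgroup.map_sup, subgroupOf_map_subtype, map_subtype_commutator, ← MonoidHom.range_eq_map,
          range_subtype]
        exact le_antisymm hLN hNL
      have hNK : N ≤ K₀ := subgroupOf_eq_top.1 (nilp_gen _ hKN)
      rw [eq_top_iff]
      intro g _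
      obtain ⟨i, hi⟩ := hquot g b hb
      have h3 := K₀.mul_mem (hNK hi) (K₀.zpow_mem hbK (-i))
      rwa [mul_assoc, ← zpow_add, add_neg_cancel, zpow_zero, mul_one] at h3

end SolFam
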