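import Pool.Agent.H1.SolFam.Sigma

/-!
# The explicit criterion and consequences
-/

open Subgroup

namespace SolFam

/-- The explicit class: `Y` is nontrivial, generated by two elements, and either cyclic, or has a
normal subgroup `N` of prime index `q` with `N / Φ(Y)` abelian and `w ^ q ∈ Φ(Y)` for all
`w ∉ N`. -/
def Special (Y : Type) [Group Y] : Prop :=
  Nontrivial Y ∧ TwoGen Y ∧ (IsCyclic Y ∨ ∃ N : Subgroup Y, N.Normal ∧ N.index.Prime ∧
    ⁅N, N⁆ ≤ frattini Y ∧ ∀ w, w ∉ N → w ^ N.index ∈ frattini Y)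

/-- The explicit criterion. -/
def ExplicitCriterion (F : Family) : Prop :=
  ∀ (Y : Type) [Group Y] [Finite Y], Group.IsSolvable Y → Special Y → ¬ F.mem Y →
    ∃ x y : Y, x ≠ y ∧ ¬ F.mem (closure ({x, y} : Set Y)) ∧ ∀ w, closure ({x, w} : Set Y) ≠ ⊤

theorem special_disconnected (Y : Type) [Group Y] [Finite Y] (h : Special Y) :
    ¬ (Sig Y).Preconnected := by
  obtain ⟨hn, h2, hc | ⟨N, hN, hq, hcomm, hpow⟩⟩ := h
  · exact sig_cyclic Y
  · exact sig_index Y h2 N hN N.index hq rfl hcomm hpow

theorem explicit_of_criterion (F : Family) (h : Criterion F) : ExplicitCriterion F := by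
  intro Y _ _ hsol hsp hY
  rcases h Y hsol hsp.2.1 hY with h1 | h1
  · exact absurd h1 (special_disconnected Y hsp)
  · exact h1

theorem criterion_of_explicit
    (hLN : ∀ (Y : Type) [Group Y] [Finite Y], Group.IsSolvable Y → TwoGen Y →
      ¬ (Sig Y).Preconnected → Special Y)
    (F : Family) (h : ExplicitCriterion F) : Criterion F := by
  intro Y _ _ hsol h2 hY
  by_cases hS : (Sig Y).Preconnected
  · exact Or.inl hS
  · exact Or.inr (h Y hsol (hLN Y hsol h2 hS) hY)

/-- The criterion depends only on the two-generated members. -/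
theorem criterion_congr (F F' : Family)
    (h : ∀ (G : Type) [Group G] [Finite G], TwoGen G → (F.mem G ↔ F'.mem G))
    (hF : Criterion F) : Criterion F' := by
  intro Y _ _ hsol h2 hY
  rcases hF Y hsol h2 (fun h' => hY ((h Y h2).1 h')) with h1 | ⟨x, y, hxy, hmem, hx⟩
  · exact Or.inl h1
  · exact Or.inr ⟨x, y, hxy, fun h' => hmem ((h _ (twoGen_closure' x y)).2 h'), hx⟩

/-- Groups that lie in every always connected family. -/
theorem forced (F : Family) (hF : AlwaysConnected F) (G : Type) [Group G] [Finite G] [Nontrivial G]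
    (h2 : TwoGen G) (N : Subgroup G) (hN : N.Normal) (hq : N.index.Prime)
    (hpow : ∀ w, w ∉ N → w ^ N.index = 1)
    (hNc : IsCyclic N ∨ ∃ p : ℕ, p.Prime ∧ IsPGroup p N) : F.mem G := by
  have key : ∀ H : Subgroup G, H ≤ N → Nontrivial H → TwoGen H → F.mem H := by
    intro H hH hHn hH2
    let f : H →* N := Subgroup.inclusion hH
    have hf : Function.Injective f := Subgroup.inclusion_injective hH
    rcases hNc with hc | ⟨p, hp, hpN⟩
    · have : IsCyclic H := isCyclic_of_injective f hf
      exact cyclic_mem F hF _ H rfl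
    · exact pgroup_mem F hF hp _ H (hpN.of_injective f hf) hH2 rfl
  have hnil : Group.IsNilpotent N := by
    rcases hNc with hc | ⟨p, hp, hpN⟩
    · let _ : CommGroup N := IsCyclic.commGroup
      exact CommGroup.isNilpotent
    · have : Fact p.Prime := ⟨hp⟩
      exact hpN.isNilpotent
  exact index_mem F hF hq _ G h2 rfl N hN dvd_rfl hnil hpow key

end SolFam
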