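import Pool.Agent.H1.SolFam.Main

/-!
# `Σ(Y)` is connected for nilpotent `Y` that are neither cyclic nor `p`-groups
-/

open Subgroup

namespace SolFam

variable {Y : Type} [Group Y]

lemma closure_eq_top_iff [Finite Y] (u v : Y) :
    closure ({u, v} : Set Y) = ⊤ ↔ ∀ M : Subgroup Y, IsCoatom M → ¬ (u ∈ M ∧ v ∈ M) := by
  constructor
  · rintro h M hM ⟨h1, h2⟩
    exact hM.1 (closure_top_of_le h h1 h2)
  · intro h
    obtain h' | ⟨M, hM, hle⟩ := eq_top_or_exists_le_coatom (closure ({u, v} : Set Y))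
    · exact h'
    · exact absurd ⟨hle (subset_closure (by simp)), hle (subset_closure (by simp))⟩ (h M hM)

lemma coatom_index_prime [Finite Y] [Group.IsNilpotent Y] (M : Subgroup Y) (hM : IsCoatom M) :
    M.index.Prime := by
  have hnor : M.Normal :=
    NormalizerCondition.normal_of_coatom M Group.normalizerCondition_of_isNilpotent hM
  obtain ⟨g, hg⟩ : ∃ g, g ∉ M := by
    by_contra hcon
    push Not at hcon
    exact hM.1 (eq_top_iff.2 fun x _ => hcon x)
  set a : Y ⧸ M := QuotientGroup.mk g with ha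
  have ha1 : a ≠ 1 := by
    rw [ha, Ne, QuotientGroup.eq_one_iff]; exact hg
  have hord : orderOf a ≠ 1 := fun h => ha1 (orderOf_eq_one_iff.1 h)
  obtain ⟨r, hr, hrd⟩ := Nat.exists_prime_and_dvd hord
  have hgr : g ^ r ∈ M := by
    by_contra h
    have htop : M ⊔ zpowers (g ^ r) = ⊤ := by
      apply hM.2
      rw [left_lt_sup, zpowers_le]
      exact h
    have hg' : g ∈ M ⊔ zpowers (g ^ r) := by rw [htop]; trivial
    obtain ⟨c, hc, b, hb, hab⟩ := mem_sup_of_normal_left.1 hg'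
    obtain ⟨k, rfl⟩ := mem_zpowers_iff.1 hb
    have h1 : g ^ (1 - (r : ℤ) * k) ∈ M := by
      have : g ^ (1 - (r : ℤ) * k) = c := by
        rw [zpow_sub, zpow_one, zpow_mul, zpow_natCast, mul_inv_eq_iff_eq_mul]
        exact hab.symm
      rw [this]; exact hc
    have h2 : a ^ (1 - (r : ℤ) * k) = 1 := by
      rw [ha, ← QuotientGroup.mk_zpow, QuotientGroup.eq_one_iff]
      exact h1
    have h3 : (orderOf a : ℤ) ∣ 1 - (r : ℤ) * k := orderOf_dvd_iff_zpow_eq_one.2 h2
    have h4 : (r : ℤ) ∣ 1 - (r : ℤ) * k := (Int.natCast_dvd_natCast.2 hrd).trans h3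
    have h5 : (r : ℤ) ∣ 1 := by
      have := dvd_add h4 (Dvd.intro k rfl : (r : ℤ) ∣ (r : ℤ) * k)
      simpa using this
    exact hr.one_lt.ne' (by exact_mod_cast Int.eq_one_of_dvd_one (by positivity) h5)
  have hor : orderOf a = r := by
    have : Fact r.Prime := ⟨hr⟩
    refine orderOf_eq_prime ?_ ha1
    rw [ha, ← QuotientGroup.mk_pow, QuotientGroup.eq_one_iff]
    exact hgr
  have hz : zpowers a = ⊤ := by
    have htop : M ⊔ zpowers g = ⊤ := by
      apply hM.2
      rw [left_lt_sup, zpowers_le]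
      exact hg
    have := congrArg (Subgroup.map (QuotientGroup.mk' M)) htop
    rw [Subgroup.map_sup, QuotientGroup.map_mk'_self, bot_sup_eq, MonoidHom.map_zpowers,
      Subgroup.map_top_of_surjective _ (QuotientGroup.mk'_surjective M)] at this
    exact this
  have hcard : M.index = r := by
    rw [← hor, ← Nat.card_zpowers, hz, Subgroup.card_top]
    rfl
  rw [hcard]; exact hr

/-- Combining elements: `c x y` behaves as `x` modulo the maximal subgroups of index `p` and as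
`y` modulo the others. -/
lemma exists_combine [Finite Y] [Group.IsNilpotent Y] (p : ℕ) (hp : p.Prime) :
    ∃ c : Y → Y → Y, (∀ M : Subgroup Y, IsCoatom M → M.index = p → ∀ x y, c x y ∈ M ↔ x ∈ M) ∧
      (∀ M : Subgroup Y, IsCoatom M → M.index ≠ p → ∀ x y, c x y ∈ M ↔ y ∈ M) ∧
      ∀ y, c y y = y := by
  obtain ⟨s, m, hpm, hn⟩ := Nat.exists_eq_pow_mul_and_not_dvd
    (n := Nat.card Y) Nat.card_pos.ne' p hp.one_lt.ne'
  have hcop : IsCoprime (p : ℤ) (m : ℤ) :=
    Nat.isCoprime_iff_coprime.2 ((Nat.Prime.coprime_iff_not_dvd hp).2 hpm)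
  obtain ⟨a, b, hab⟩ := hcop
  have hpow : ∀ M : Subgroup Y, IsCoatom M → ∀ z : Y, ∀ t : ℤ, (M.index : ℤ) ∣ t → z ^ t ∈ M := by
    intro M hM z t ht
    have hnor : M.Normal :=
      NormalizerCondition.normal_of_coatom M Group.normalizerCondition_of_isNilpotent hM
    obtain ⟨u, rfl⟩ := ht
    rw [zpow_mul, zpow_natCast]
    exact M.zpow_mem (pow_index_mem M z) u
  refine ⟨fun x y => x ^ (b * m) * y ^ (1 - b * m), ?_, ?_, ?_⟩
  · intro M hM hidx x y
    have h1 : y ^ (1 - b * m) ∈ M := by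
      apply hpow M hM
      rw [hidx]
      exact ⟨a, by linear_combination -hab⟩
    rw [M.mul_mem_cancel_right h1]
    have h2 : x ^ (1 - b * m) ∈ M := by
      apply hpow M hM
      rw [hidx]
      exact ⟨a, by linear_combination -hab⟩
    constructor
    · intro h
      have := M.mul_mem h h2
      rwa [← zpow_add, add_sub_cancel, zpow_one] at this
    · intro h
      exact M.zpow_mem h _
  · intro M hM hidx x y
    have hr := coatom_index_prime M hM
    have hrm : M.index ∣ m := by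
      have h1 : M.index ∣ p ^ s * m := by rw [← hn]; exact M.index_dvd_card
      rcases (Nat.Prime.dvd_mul hr).1 h1 with h | h
      · exact absurd ((Nat.prime_dvd_prime_iff_eq hr hp).1 (hr.dvd_of_dvd_pow h)) hidx
      · exact h
    have hd : (M.index : ℤ) ∣ b * m := (Int.natCast_dvd_natCast.2 hrm).mul_left b
    have h1 : ∀ z : Y, z ^ (b * m) ∈ M := fun z => hpow M hM z _ hd
    rw [M.mul_mem_cancel_left (h1 x)]
    constructor
    · intro h
      have := M.mul_mem (h1 y) h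
      rwa [← zpow_add, add_sub_cancel, zpow_one] at this
    · intro h
      exact M.zpow_mem h _
  · intro y
    change y ^ (b * m) * y ^ (1 - b * m) = y
    rw [← zpow_add, add_sub_cancel, zpow_one]

/-- If `Y` is not cyclic, then for some prime `p` each element lies in a maximal subgroup of
index `p`. -/
lemma exists_prime_cover [Finite Y] [Group.IsNilpotent Y] (hc : ¬ IsCyclic Y) :
    ∃ p : ℕ, p.Prime ∧ ∀ x : Y, ∃ M : Subgroup Y, IsCoatom M ∧ M.index = p ∧ x ∈ M := by
  by_contra hcon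
  push Not at hcon
  apply hc
  have key : ∀ S : Finset ℕ, (∀ p ∈ S, p.Prime) →
      ∃ g : Y, ∀ M : Subgroup Y, IsCoatom M → M.index ∈ S → g ∉ M := by
    intro S
    induction S using Finset.induction_on with
    | empty => intro _; exact ⟨1, fun M _ h => absurd h (Finset.notMem_empty _)⟩
    | insert p S hpS ih =>
      intro hS
      obtain ⟨g, hg⟩ := ih fun r hr => hS r (Finset.mem_insert_of_mem hr)
      have hp := hS p (Finset.mem_insert_self p S)
      obtain ⟨x, hx⟩ := hcon p hp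
      obtain ⟨c, hc1, hc2, -⟩ := exists_combine (Y := Y) p hp
      refine ⟨c x g, fun M hM hMS => ?_⟩
      by_cases hidx : M.index = p
      · rw [hc1 M hM hidx]
        exact hx M hM hidx
      · rw [hc2 M hM hidx]
        exact hg M hM ((Finset.mem_insert.1 hMS).resolve_left hidx)
  obtain ⟨g, hg⟩ := key (Nat.card Y).primeFactors fun p hp => Nat.prime_of_mem_primeFactors hp
  refine ⟨⟨g, fun z => ?_⟩⟩
  obtain h | ⟨M, hM, hle⟩ := eq_top_or_exists_le_coatom (zpowers g)
  · exact mem_zpowers_iff.1 (by rw [h]; trivial)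
  · exfalso
    refine hg M hM ?_ (hle (mem_zpowers g))
    exact Nat.mem_primeFactors.2 ⟨coatom_index_prime M hM, M.index_dvd_card, Nat.card_pos.ne'⟩

/-- If `Y` is nilpotent and not a `p`-group, then it has a maximal subgroup of index `≠ p`. -/
lemma exists_coatom_ne [Finite Y] [Group.IsNilpotent Y] (p : ℕ) (hp : p.Prime)
    (h : ¬ IsPGroup p Y) : ∃ M : Subgroup Y, IsCoatom M ∧ M.index ≠ p := by
  have : Fact p.Prime := ⟨hp⟩
  obtain ⟨P⟩ : Nonempty (Sylow p Y) := inferInstance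
  obtain h' | ⟨M, hM, hle⟩ := eq_top_or_exists_le_coatom (P : Subgroup Y)
  · exfalso
    apply h
    have h1 := P.isPGroup'
    have h2 : IsPGroup p (⊤ : Subgroup Y) := h' ▸ h1
    exact h2.of_equiv topEquiv
  · refine ⟨M, hM, fun hidx => ?_⟩
    have h1 : M.index ∣ (P : Subgroup Y).index := index_dvd_of_le hle
    rw [hidx] at h1
    exact P.not_dvd_index h1

/-- `Σ(Y)` is connected for every finite nilpotent group which is neither cyclic nor a
`p`-group. -/
theorem sig_nilpotent [Finite Y] [Group.IsNilpotent Y] (hc : ¬ IsCyclic Y)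
    (hpg : ¬ ∃ p : ℕ, p.Prime ∧ IsPGroup p Y) : (Sig Y).Preconnected := by
  obtain ⟨p, hp, hcover⟩ := exists_prime_cover hc
  obtain ⟨c, hc1, hc2, hc3⟩ := exists_combine (Y := Y) p hp
  obtain ⟨M₁, hM₁, hidx₁⟩ := exists_coatom_ne p hp fun h => hpg ⟨p, hp, h⟩
  -- two vertices in a common maximal subgroup are connected
  have hadj : ∀ u v : ↥(GenVertex Y), (∃ M : Subgroup Y, IsCoatom M ∧ u.1 ∈ M ∧ v.1 ∈ M) →
      (Sig Y).Reachable u v := by
    rintro u v ⟨M, hM, h1, h2⟩
    by_cases huv : u = v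
    · rw [huv]
    · refine SimpleGraph.Adj.reachable ⟨fun h => huv (Subtype.ext h), fun h => ?_⟩
      exact (closure_eq_top_iff _ _).1 h M hM ⟨h1, h2⟩
  -- combined elements are vertices
  have hvert : ∀ x z w w' : Y, closure ({x, w} : Set Y) = ⊤ →
      (∀ M : Subgroup Y, IsCoatom M → M.index ≠ p → ¬ (z ∈ M ∧ w' ∈ M)) →
      c x z ∈ GenVertex Y := by
    intro x z w w' h1 h2
    refine ⟨c w w', ?_⟩
    rw [closure_eq_top_iff]
    intro M hM
    by_cases hidx : M.index = p
    · rw [hc1 M hM hidx, hc1 M hM hidx]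
      exact (closure_eq_top_iff _ _).1 h1 M hM
    · rw [hc2 M hM hidx, hc2 M hM hidx]
      exact h2 M hM hidx
  rintro ⟨x, wx, hx⟩ ⟨y, wy, hy⟩
  -- the element `z` for the other primes
  obtain ⟨z, w', hz, M', hM', hidx', hzM'⟩ : ∃ z w' : Y,
      (∀ M : Subgroup Y, IsCoatom M → M.index ≠ p → ¬ (z ∈ M ∧ w' ∈ M)) ∧
      ∃ M' : Subgroup Y, IsCoatom M' ∧ M'.index ≠ p ∧ z ∈ M' := by
    by_cases h : ∃ M' : Subgroup Y, IsCoatom M' ∧ M'.index ≠ p ∧ y ∈ M'
    · exact ⟨y, wy, fun M hM _ => (closure_eq_top_iff _ _).1 hy M hM, h⟩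
    · push Not at h
      exact ⟨1, y, fun M hM hidx h' => h M hM hidx h'.2, M₁, hM₁, hidx₁, M₁.one_mem⟩
  have hv1 : c x z ∈ GenVertex Y := hvert x z wx w' hx hz
  have hv2 : c y z ∈ GenVertex Y := hvert y z wy w' hy hz
  have s1 : (Sig Y).Reachable ⟨x, wx, hx⟩ ⟨c x z, hv1⟩ := by
    obtain ⟨M, hM, hidx, hxM⟩ := hcover x
    exact hadj _ _ ⟨M, hM, hxM, (hc1 M hM hidx x z).2 hxM⟩
  have s2 : (Sig Y).Reachable ⟨c x z, hv1⟩ ⟨c y z, hv2⟩ :=
    hadj _ _ ⟨M', hM', (hc2 M' hM' hidx' x z).2 hzM', (hc2 M' hM' hidx' y z).2 hzM'⟩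
  have s3 : (Sig Y).Reachable ⟨c y z, hv2⟩ ⟨y, wy, hy⟩ := by
    obtain ⟨M, hM, hidx, hyM⟩ := hcover y
    exact hadj _ _ ⟨M, hM, (hc1 M hM hidx y z).2 hyM, hyM⟩
  exact (s1.trans s2).trans s3

end SolFam
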