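import Pool.Agent.H1.SolFam.Nilp

/-!
# The nilpotent members of always connected families
-/

open Subgroup

namespace SolFam

/-- `Σ(Y)` is disconnected for noncyclic two-generated `p`-groups. -/
theorem sig_pgroup {p : ℕ} (hp : p.Prime) (Y : Type) [Group Y] [Finite Y] (hY : IsPGroup p Y)
    (h2 : TwoGen Y) (hcyc : ¬ IsCyclic Y) : ¬ (Sig Y).Preconnected := by
  obtain ⟨x, y, hxy⟩ := h2
  have hx : zpowers x ≠ ⊤ := by
    intro h
    exact hcyc ⟨⟨x, fun z => mem_zpowers_iff.1 (by rw [h]; trivial)⟩⟩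
  obtain h | ⟨M, hM, hxM⟩ := eq_top_or_exists_le_coatom (zpowers x)
  · exact absurd h hx
  have hxM' : x ∈ M := hxM (mem_zpowers x)
  have hyM : y ∉ M := fun h => hM.1 (closure_top_of_le hxy hxM' h)
  refine sig_sep Y (M : Set Y) ?_ x y hxM' hyM ⟨y, hxy⟩ ⟨x, by rw [Set.pair_comm]; exact hxy⟩
  rintro u hu v hv ⟨w, hw⟩ -
  by_contra h
  obtain h' | ⟨M', hM', hle⟩ := eq_top_or_exists_le_coatom (closure ({u, v} : Set Y))
  · exact h h'
  have hu' : u ∈ M' := hle (subset_closure (by simp))
  have hv' : v ∈ M' := hle (subset_closure (by simp))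
  have := coatom_unique hp hY M M' hM hM' u w hw hu hu'
  subst this
  exact hv hv'

theorem crit_cyclic (F : Family) (h : Criterion F) (Y : Type) [Group Y] [Finite Y] [Nontrivial Y]
    [IsCyclic Y] : F.mem Y := by
  by_contra hY
  obtain ⟨g, hg⟩ := IsCyclic.exists_generator (α := Y)
  have htop : zpowers g = ⊤ := by
    rw [eq_top_iff]; exact fun x _ => hg x
  have hgen : ∀ v : Y, closure ({v, g} : Set Y) = ⊤ := by
    intro v
    rw [eq_top_iff, ← htop, zpowers_eq_closure]
    exact closure_mono (by simp)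
  have hsol : Group.IsSolvable Y := by
    let _ : CommGroup Y := IsCyclic.commGroup
    infer_instance
  rcases h Y hsol ⟨1, g, hgen 1⟩ hY with h1 | ⟨x, y, -, -, hx⟩
  · exact sig_cyclic Y h1
  · exact hx g (hgen x)

theorem crit_pgroup (F : Family) (h : Criterion F) {p : ℕ} (hp : p.Prime) :
    ∀ (n : ℕ) (Y : Type) [Group Y] [Finite Y] [Nontrivial Y], Nat.card Y = n → IsPGroup p Y →
      TwoGen Y → F.mem Y := by
  intro n
  induction n using Nat.strong_induction_on with
  | _ n ih =>
    intro Y _ _ _ hn hpY h2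
    by_cases hcyc : IsCyclic Y
    · exact crit_cyclic F h Y
    by_contra hY
    have : Fact p.Prime := ⟨hp⟩
    have hnil : Group.IsNilpotent Y := hpY.isNilpotent
    rcases h Y inferInstance h2 hY with h1 | ⟨x, y, hxy, hmem, hx⟩
    · exact sig_pgroup hp Y hpY h2 hcyc h1
    · have := nontrivial_closure hxy
      refine hmem (ih _ ?_ _ rfl (hpY.to_subgroup _) (twoGen_closure x y))
      rw [← hn]
      refine lt_of_le_of_ne (Subgroup.card_le_card_group _) ?_
      intro h
      exact hx y (Subgroup.card_eq_iff_eq_top _ |>.1 h)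

/-- The family of the finite soluble groups which, if nontrivial and nilpotent, belong to `C`. -/
def nilFam (C : ∀ (G : Type) [Group G], Prop)
    (hC : ∀ (G H : Type) [Group G] [Group H], Nonempty (G ≃* H) → C G → C H) : Family where
  mem G _ := Finite G ∧ Group.IsSolvable G ∧ (Nontrivial G → Group.IsNilpotent G → C G)
  iso G H _ _ := by
    rintro ⟨e⟩ ⟨h1, h2, h3⟩
    refine ⟨Finite.of_equiv G e.toEquiv,
      Group.isSolvable_of_surjective (f := e.toMonoidHom) e.surjective, fun h4 h5 => ?_⟩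
    exact hC G H ⟨e⟩ (h3 e.toEquiv.nontrivial ((Group.isNilpotent_congr e).2 h5))
  finite G _ h := h.1
  soluble G _ h := h.2.1

theorem nilFam_criterion (C : ∀ (G : Type) [Group G], Prop)
    (hC : ∀ (G H : Type) [Group G] [Group H], Nonempty (G ≃* H) → C G → C H)
    (hc : ∀ (G : Type) [Group G] [Finite G] [Nontrivial G],
      (IsCyclic G ∨ (TwoGen G ∧ ∃ p : ℕ, p.Prime ∧ IsPGroup p G)) → C G) :
    Criterion (nilFam C hC) := by
  intro Y _ _ hsol h2 hY
  left
  have hY' : Nontrivial Y ∧ Group.IsNilpotent Y ∧ ¬ C Y := by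
    by_contra hcon
    apply hY
    refine ⟨inferInstance, hsol, fun h3 h4 => ?_⟩
    by_contra h5
    exact hcon ⟨h3, h4, h5⟩
  obtain ⟨h3, h4, h5⟩ := hY'
  refine sig_nilpotent (fun h => h5 (hc Y (Or.inl h))) (fun h => h5 (hc Y (Or.inr ⟨h2, h⟩)))

end SolFam
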