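import Pool.Agent.H1.SolFam.Criterion
import Pool.Agent.H1.SolFam.Index

/-!
# Two-generated groups with disconnected `Σ(Y)`
-/

open Subgroup
open scoped commutatorElement

namespace SolFam

lemma sig_sep (Y : Type) [Group Y] (S : Set Y)
    (hS : ∀ a ∈ S, ∀ b ∉ S, a ∈ GenVertex Y → b ∈ GenVertex Y → closure ({a, b} : Set Y) = ⊤)
    (u v : Y) (hu : u ∈ S) (hv : v ∉ S) (hu' : u ∈ GenVertex Y) (hv' : v ∈ GenVertex Y) :
    ¬ (Sig Y).Preconnected := by
  intro hc
  obtain ⟨p⟩ := hc ⟨u, hu'⟩ ⟨v, hv'⟩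
  obtain ⟨d, -, hd1, hd2⟩ := p.exists_boundary_dart {z | z.1 ∈ S} hu hv
  have hadj : (NonGen Y).Adj d.fst.1 d.snd.1 := d.adj
  exact hadj.2 (hS _ hd1 _ hd2 d.fst.2 d.snd.2)

/-- `Σ(Y)` is disconnected for every nontrivial cyclic group. -/
theorem sig_cyclic (Y : Type) [Group Y] [Nontrivial Y] [IsCyclic Y] : ¬ (Sig Y).Preconnected := by
  obtain ⟨g, hg⟩ := IsCyclic.exists_generator (α := Y)
  have htop : zpowers g = ⊤ := by
    rw [eq_top_iff]; exact fun x _ => hg x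
  have hgen : ∀ v : Y, closure ({g, v} : Set Y) = ⊤ := by
    intro v
    rw [eq_top_iff, ← htop, zpowers_eq_closure]
    exact closure_mono (by simp)
  have hg1 : g ≠ 1 := by
    rintro rfl
    have : (⊥ : Subgroup Y) = ⊤ := by rw [← htop, zpowers_one_eq_bot]
    exact bot_ne_top this
  refine sig_sep Y {g} ?_ g 1 rfl (by simpa using hg1.symm) ⟨1, hgen 1⟩
    ⟨g, by rw [Set.pair_comm]; exact hgen 1⟩
  rintro a rfl b - - -
  exact hgen b

/-- If `Y` is generated by two elements and has a normal subgroup `N` of prime index `q` such that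
`N / Φ(Y)` is abelian and `w ^ q ∈ Φ(Y)` for all `w ∉ N`, then `Σ(Y)` is disconnected. -/
theorem sig_index (Y : Type) [Group Y] [Finite Y] (h2 : TwoGen Y) (N : Subgroup Y) (hN : N.Normal)
    (q : ℕ) (hq : q.Prime) (hidx : N.index = q) (hcomm : ⁅N, N⁆ ≤ frattini Y)
    (hpow : ∀ w, w ∉ N → w ^ q ∈ frattini Y) : ¬ (Sig Y).Preconnected := by
  have hNtop : N ≠ ⊤ := by
    intro h
    rw [h, index_top] at hidx
    exact hq.one_lt.ne hidx
  have hquot : ∀ g v : Y, v ∉ N → ∃ i : ℤ, g * v ^ i ∈ N := by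
    intro g v hv
    have hcard : Nat.card (Y ⧸ N) = q := hidx
    have : Fact (Nat.card (Y ⧸ N)).Prime := ⟨by rw [hcard]; exact hq⟩
    have hv1 : (QuotientGroup.mk v : Y ⧸ N) ≠ 1 := by
      rwa [Ne, QuotientGroup.eq_one_iff]
    have hz := zpowers_eq_top_of_prime_card (G := Y ⧸ N) rfl hv1
    have hmem : (QuotientGroup.mk g⁻¹ : Y ⧸ N) ∈ zpowers (QuotientGroup.mk v : Y ⧸ N) := by
      rw [hz]; trivial
    obtain ⟨i, hi⟩ := mem_zpowers_iff.1 hmem
    refine ⟨i, ?_⟩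
    rw [← QuotientGroup.eq_one_iff, QuotientGroup.mk_mul, QuotientGroup.mk_zpow, hi,
      QuotientGroup.mk_inv, mul_inv_cancel]
  have hcoatom : IsCoatom N := by
    refine ⟨hNtop, fun K hK => ?_⟩
    obtain ⟨v, hvK, hvN⟩ := SetLike.exists_of_lt hK
    rw [eq_top_iff]
    intro g _
    obtain ⟨i, hi⟩ := hquot g v hvN
    have h3 := K.mul_mem (hK.le hi) (K.zpow_mem hvK (-i))
    rwa [mul_assoc, ← zpow_add, add_neg_cancel, zpow_zero, mul_one] at h3
  have hfr : frattini Y ≤ N := frattini_le_coatom hcoatom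
  have hfn : (frattini Y).Normal := inferInstance
  obtain ⟨u, v, huv, hu, hv⟩ : ∃ u v : Y, closure ({u, v} : Set Y) = ⊤ ∧ u ∈ N ∧ v ∉ N := by
    obtain ⟨x, y, hxy⟩ := h2
    by_cases hy : y ∈ N
    · refine ⟨y, x, by rw [Set.pair_comm]; exact hxy, hy, ?_⟩
      intro hx
      exact hNtop (closure_top_of_le hxy hx hy)
    · obtain ⟨i, hi⟩ := hquot x y hy
      refine ⟨x * y ^ i, y, ?_, hi, hy⟩
      refine closure_top_of_le hxy ?_ (subset_closure (by simp))
      have h1 : x * y ^ i ∈ closure ({x * y ^ i, y} : Set Y) := subset_closure (by simp)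
      have h2 : y ∈ closure ({x * y ^ i, y} : Set Y) := subset_closure (by simp)
      have h3 := mul_mem h1 (zpow_mem h2 (-i))
      rwa [mul_assoc, ← zpow_add, add_neg_cancel, zpow_zero, mul_one] at h3
  refine sig_sep Y (N : Set Y) ?_ u v hu hv ⟨v, huv⟩ ⟨u, by rw [Set.pair_comm]; exact huv⟩
  rintro a ha b hb ⟨w, hw⟩ -
  replace ha : a ∈ N := ha
  replace hb : b ∉ N := hb
  have hwN : w ∉ N := fun h => hNtop (closure_top_of_le hw ha h)
  set K₀ := closure ({a, b} : Set Y) with hK₀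
  have haK : a ∈ K₀ := subset_closure (by simp)
  have hbK : b ∈ K₀ := subset_closure (by simp)
  set L : Subgroup Y := (K₀ ⊓ N) ⊔ frattini Y with hL
  have hLN : L ≤ N := sup_le inf_le_right hfr
  have hLn : ∀ g ∈ N, ∀ l ∈ L, g * l * g⁻¹ ∈ L := by
    intro g hg l hl
    have h1 : ⁅g, l⁆ ∈ ⁅N, N⁆ := commutator_mem_commutator hg (hLN hl)
    have h2 : g * l * g⁻¹ = ⁅g, l⁆ * l := by
      rw [commutatorElement_def]; group
    rw [h2]
    exact L.mul_mem (mem_sup_right (hcomm h1)) hl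
  have hLk : ∀ g ∈ K₀, ∀ l ∈ L, g * l * g⁻¹ ∈ L := by
    intro g hg l hl
    have : L ≤ L.comap (MulAut.conj g).toMonoidHom := by
      refine sup_le ?_ ?_
      · intro z hz
        refine mem_sup_left ⟨?_, ?_⟩
        · exact K₀.mul_mem (K₀.mul_mem hg hz.1) (K₀.inv_mem hg)
        · exact hN.conj_mem z hz.2 g
      · intro z hz
        exact mem_sup_right (hfn.conj_mem z hz g)
    exact this hl
  have hLnor : L.Normal := by
    refine ⟨fun l hl g => ?_⟩
    obtain ⟨i, hi⟩ := hquot g b hb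
    have h1 := hLk (b ^ (-i)) (K₀.zpow_mem hbK _) l hl
    have h2 := hLn _ hi _ h1
    have : g * b ^ i * (b ^ (-i) * l * (b ^ (-i))⁻¹) * (g * b ^ i)⁻¹ = g * l * g⁻¹ := by
      group
    rwa [this] at h2
  have htop : L ⊔ zpowers w = ⊤ :=
    closure_top_of_le hw (mem_sup_left (mem_sup_left ⟨haK, ha⟩))
      (mem_sup_right (mem_zpowers w))
  have hNL : N ≤ L := by
    intro z hz
    have hz' : z ∈ L ⊔ zpowers w := by rw [htop]; trivial
    obtain ⟨l, hl, c, hc, rfl⟩ := mem_sup_of_normal_left.1 hz'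
    obtain ⟨i, rfl⟩ := mem_zpowers_iff.1 hc
    have hwi : w ^ i ∈ N := (N.mul_mem_cancel_left (hLN hl)).1 hz
    have hqi : (q : ℤ) ∣ i := by
      by_contra hqi
      have hcop : IsCoprime (q : ℤ) i :=
        (Nat.prime_iff_prime_int.1 hq).coprime_iff_not_dvd.2 hqi
      refine hwN (mem_of_coprime N w _ _ hcop ?_ hwi)
      rw [zpow_natCast]
      exact hfr (hpow w hwN)
    obtain ⟨t, rfl⟩ := hqi
    rw [zpow_mul, zpow_natCast]
    exact L.mul_mem hl (L.zpow_mem (mem_sup_right (hpow w hwN)) t)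
  apply frattini_nongenerating
  rw [eq_top_iff]
  intro g _
  obtain ⟨i, hi⟩ := hquot g b hb
  have hle : L ≤ K₀ ⊔ frattini Y := sup_le_sup_right inf_le_left _
  have h3 := (K₀ ⊔ frattini Y).mul_mem (hle (hNL hi))
    ((K₀ ⊔ frattini Y).zpow_mem (mem_sup_left hbK) (-i))
  rwa [mul_assoc, ← zpow_add, add_neg_cancel, zpow_zero, mul_one] at h3

end SolFam
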